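import Mathlib
import Pool.Agent.Helper98.CovDef
import Pool.Agent.Helper98.CovFinal

open Pool.Agent.Helper98.Cov

namespace Pool.Agent.Results.MP_c99e7e_pr.CoverCostCubic

/-- For every `M > 0` there is `c > 0` such that, for every finite connected simple graph `G` with
`n + 1` vertices and every vertex `r`, if the cover time of simple random walk from `r` exceeds
`M n ^ 3` then the cover cost from `r` exceeds `c n ^ 3`. -/
theorem result : ∀ M : ℝ, 0 < M → ∃ c : ℝ, 0 < c ∧
    ∀ (V : Type) [Fintype V] [DecidableEq V] (G : SimpleGraph V) [DecidableRel G.Adj],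
      G.Connected → ∀ r : V,
        ENNReal.ofReal (M * ((Fintype.card V : ℝ) - 1) ^ 3) < coverTime G r →
        ENNReal.ofReal (c * ((Fintype.card V : ℝ) - 1) ^ 3) < coverCost G r :=
  main

end Pool.Agent.Results.MP_c99e7e_pr.CoverCostCubic
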